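import Mathlib

/-!
# Gaussian monotonicity of the modified Banaszczyk transform

For every level `p` in `(0,1)` there is a radius `r(p) > 0`, depending increasingly on `p` and not on
the dimension, such that `γ_n (K ∘ u) ≥ γ_n (K)` for all closed convex `K` with Gaussian measure `p`
and all `u` with `|u| ≤ r(p)`.

Outline of the proof. Write `f(y) = γ_1 (I_y)`, `G(η) = γ_{n-1} {f ≥ η}`, `q2 = p/2` and
`P = γ_1 [-r, r]`. Log-concavity of Gaussian measures (Prekopa-Leindler, proved below) gives two facts: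
* coarse scale: `G(q1) ≥ G(q2)^(1-s) G(η)^s` with `s` of order `1/log(1/η)` and as large a constant
  as we like, where `q1` depends only on `p`;
* fine scale: `G(P) ≥ G(q2)^(1-s) G(η)^s` whenever `q2^(1-s) η^s = P`.
Together they bound the mass lost outside of `Z_K(u)` by a small multiple of `r (G(q1) - G(q2))`, while
the mass gained is at least `c_p r (G(q1) - G(q2))`.
-/

open MeasureTheory ProbabilityTheory Set
open scoped ENNReal NNReal Pointwise RealInnerProductSpace

namespace Pool.Agent.Results.MP_681294_gt.GaussMono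

section defs

variable {E : Type*} [NormedAddCommGroup E] [InnerProductSpace ℝ E]

/-- The section `I_y` of `K` by the line through `y` in the direction of `u`, read off isometrically
on the real line: the set of real `t` with `y + t • (u / ‖u‖) ∈ K`. -/
def lineSec (K : Set E) (u y : E) : Set ℝ := {t : ℝ | y + t • (‖u‖⁻¹ • u) ∈ K}

/-- The set `Z_K(u)` of all `y` orthogonal to `u` whose section `I_y` has one-dimensional Gaussian
measure at least `p_r`, the Gaussian measure of `[-r, r]`, where `r = ‖u‖`. -/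
def goodBase (K : Set E) (u : E) : Set E :=
  {y : E | ⟪u, y⟫ = 0 ∧
    gaussianReal 0 1 (Set.Icc (-‖u‖) ‖u‖) ≤ gaussianReal 0 1 (lineSec K u y)}

open Classical in
/-- The modified Banaszczyk transform `K ∘ u`. -/
noncomputable def transform (K : Set E) (u : E) : Set E :=
  if u = 0 then K
  else (K + segment ℝ (-u) u) ∩ (goodBase K u + {x : E | ∃ t : ℝ, x = t • u})

end defs

/-- one-dimensional Brunn-Minkowski, compact version -/
lemma bm1_compact {A B C : Set ℝ} (hA : IsCompact A) (hB : IsCompact B)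
    (hA0 : A.Nonempty) (hB0 : B.Nonempty) (h : ∀ x ∈ A, ∀ y ∈ B, x + y ∈ C) :
    volume A + volume B ≤ volume C := by
  obtain ⟨a, ha, ha'⟩ := hA.exists_isGreatest hA0
  obtain ⟨b, hb, hb'⟩ := hB.exists_isLeast hB0
  have h1 : volume ((fun x => x + b) '' A) = volume A := by
    simp [Set.image_add_right]
  have h2 : volume ((fun x => a + x) '' B) = volume B := by
    simp [Set.image_add_left]
  have hm : MeasurableSet ((fun x => a + x) '' B) :=
    (hB.image (by fun_prop)).measurableSet
  have hdisj : AEDisjoint volume ((fun x => x + b) '' A) ((fun x => a + x) '' B) := by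
    refine measure_mono_null (t := {a + b}) ?_ (by simp)
    rintro z ⟨⟨x, hx, rfl⟩, ⟨y, hy, hxy⟩⟩
    have e1 := ha' hx
    have e2 := hb' hy
    simp only [mem_singleton_iff]
    simp only at hxy
    linarith
  rw [← h1, ← h2, ← measure_union₀ hm.nullMeasurableSet hdisj]
  apply measure_mono
  rintro z (⟨x, hx, rfl⟩ | ⟨y, hy, rfl⟩)
  · exact h x hx b hb
  · exact h a ha y hy

lemma bm1 {A B C : Set ℝ} (hA : MeasurableSet A) (hB : MeasurableSet B)
    (hA0 : A.Nonempty) (hB0 : B.Nonempty) {s : ℝ} (hs0 : 0 < s) (hs1 : s < 1)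
    (h : ∀ x ∈ A, ∀ y ∈ B, (1 - s) * x + s * y ∈ C) :
    ENNReal.ofReal (1 - s) * volume A + ENNReal.ofReal s * volume B ≤ volume C := by
  obtain ⟨a0, ha0⟩ := hA0
  obtain ⟨b0, hb0⟩ := hB0
  have key : ∀ (K L : Set ℝ), K ⊆ A → IsCompact K → L ⊆ B → IsCompact L →
      ENNReal.ofReal (1 - s) * volume K + ENNReal.ofReal s * volume L ≤ volume C := by
    intro K L hK hKc hL hLc
    have hK' : IsCompact (insert a0 K) := hKc.insert a0
    have hL' : IsCompact (insert b0 L) := hLc.insert b0
    have e := bm1_compact (A := (fun x => (1 - s) * x) '' (insert a0 K))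
      (B := (fun x => s * x) '' (insert b0 L)) (C := C)
      (hK'.image (by fun_prop)) (hL'.image (by fun_prop))
      ((insert_nonempty _ _).image _) ((insert_nonempty _ _).image _) (by
        rintro _ ⟨x, hx, rfl⟩ _ ⟨y, hy, rfl⟩
        refine h x ?_ y ?_
        · rcases hx with rfl | hx
          · exact ha0
          · exact hK hx
        · rcases hy with rfl | hy
          · exact hb0
          · exact hL hy)
    refine le_trans ?_ e
    have f1 : ∀ (c : ℝ) (hc : 0 < c) (S : Set ℝ), volume ((fun x => c * x) '' S) =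
        ENNReal.ofReal c * volume S := by
      intro c hc S
      have := Measure.addHaar_smul (volume : Measure ℝ) c S
      simp only [Module.finrank_self, pow_one, abs_of_pos hc] at this
      rw [← this]
      rfl
    rw [f1 (1 - s) (by linarith), f1 s hs0]
    gcongr
    · exact subset_insert _ _
    · exact subset_insert _ _
  rw [hA.measure_eq_iSup_isCompact, hB.measure_eq_iSup_isCompact]
  simp only [ENNReal.mul_iSup]
  refine ENNReal.iSup_add_iSup_le fun K L => ?_
  by_cases hK : K ⊆ A <;> by_cases hKc : IsCompact K <;> by_cases hL : L ⊆ B <;>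
    by_cases hLc : IsCompact L
  all_goals simp only [hK, hKc, hL, hLc, iSup_pos, iSup_neg, not_false_eq_true, bot_eq_zero', add_zero, zero_add, zero_le]
  · exact key K L hK hKc hL hLc
  · simpa using key K ∅ hK hKc (empty_subset _) isCompact_empty
  · simpa using key K ∅ hK hKc (empty_subset _) isCompact_empty
  · simpa using key K ∅ hK hKc (empty_subset _) isCompact_empty
  · simpa using key ∅ L (empty_subset _) isCompact_empty hL hLc
  · simpa using key ∅ L (empty_subset _) isCompact_empty hL hLc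
  · simpa using key ∅ L (empty_subset _) isCompact_empty hL hLc

lemma amgm {s : ℝ} (hs0 : 0 < s) (hs1 : s < 1) (x y : ℝ≥0∞) :
    x ^ (1 - s) * y ^ s ≤ ENNReal.ofReal (1 - s) * x + ENNReal.ofReal s * y := by
  have h1 : 0 < 1 - s := by linarith
  have hne1 : ENNReal.ofReal (1 - s) ≠ 0 := by simpa using h1
  have hne2 : ENNReal.ofReal s ≠ 0 := by simpa using hs0
  rcases eq_or_ne x ⊤ with rfl | hx
  · simp [ENNReal.mul_top hne1]
  rcases eq_or_ne y ⊤ with rfl | hy
  · simp [ENNReal.mul_top hne2]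
  lift x to ℝ≥0 using hx
  lift y to ℝ≥0 using hy
  have := NNReal.geom_mean_le_arith_mean2_weighted (1 - s).toNNReal s.toNNReal x y (by
    rw [← Real.toNNReal_add h1.le hs0.le]; simp)
  rw [Real.coe_toNNReal _ h1.le, Real.coe_toNNReal _ hs0.le] at this
  rw [← ENNReal.coe_rpow_of_nonneg _ h1.le, ← ENNReal.coe_rpow_of_nonneg _ hs0.le]
  unfold ENNReal.ofReal
  exact_mod_cast this

/-- normalised one-dimensional Prekopa-Leindler -/
lemma pl1_norm {f g : ℝ → ℝ} {h : ℝ → ℝ≥0∞} (hf : Measurable f) (hg : Measurable g)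
    (hh : Measurable h) (hf0 : ∀ x, 0 ≤ f x) (hf1 : ∀ x, f x ≤ 1)
    (hg0 : ∀ x, 0 ≤ g x) (hg1 : ∀ x, g x ≤ 1)
    (hfs : ∀ t < 1, ∃ x, t < f x) (hgs : ∀ t < 1, ∃ x, t < g x)
    {s : ℝ} (hs0 : 0 < s) (hs1 : s < 1)
    (H : ∀ x y, ENNReal.ofReal (f x ^ (1 - s) * g y ^ s) ≤ h ((1 - s) * x + s * y)) :
    ENNReal.ofReal (1 - s) * (∫⁻ x, ENNReal.ofReal (f x)) +
      ENNReal.ofReal s * (∫⁻ x, ENNReal.ofReal (g x)) ≤ ∫⁻ x, h x := by
  set h' : ℝ → ℝ := fun x => (min (h x) 1).toReal with hh'
  have hh'm : Measurable h' := (hh.min measurable_const).ennreal_toReal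
  have e1 : ∫⁻ x, ENNReal.ofReal (h' x) ≤ ∫⁻ x, h x := by
    apply lintegral_mono
    intro x
    simp only [hh']
    rw [ENNReal.ofReal_toReal (by simp)]
    exact min_le_left _ _
  refine le_trans ?_ e1
  rw [lintegral_eq_lintegral_meas_lt volume (ae_of_all _ hf0) hf.aemeasurable,
    lintegral_eq_lintegral_meas_lt volume (ae_of_all _ hg0) hg.aemeasurable,
    lintegral_eq_lintegral_meas_lt volume (ae_of_all _ (fun x => ENNReal.toReal_nonneg))
      hh'm.aemeasurable]
  have mf : Measurable fun t => volume {a | t < f a} := by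
    apply Antitone.measurable
    intro t t' htt'
    exact measure_mono fun x hx => lt_of_le_of_lt htt' hx
  have mg : Measurable fun t => volume {a | t < g a} := by
    apply Antitone.measurable
    intro t t' htt'
    exact measure_mono fun x hx => lt_of_le_of_lt htt' hx
  rw [← lintegral_const_mul _ mf, ← lintegral_const_mul _ mg,
    ← lintegral_add_left (mf.const_mul _)]
  apply setLIntegral_mono' measurableSet_Ioi
  intro t ht
  have ht : 0 < t := ht
  rcases lt_or_ge t 1 with h1 | h1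
  · obtain ⟨x0, hx0⟩ := hfs t h1
    obtain ⟨y0, hy0⟩ := hgs t h1
    apply bm1 (measurableSet_lt measurable_const hf) (measurableSet_lt measurable_const hg)
      ⟨x0, hx0⟩ ⟨y0, hy0⟩ hs0 hs1
    intro x hx y hy
    have hx : t < f x := hx
    have hy : t < g y := hy
    have hs1' : 0 < 1 - s := by linarith
    have e2 : t < f x ^ (1 - s) * g y ^ s := by
      have : t = t ^ (1 - s) * t ^ s := by
        rw [← Real.rpow_add ht]; simp
      rw [this]
      apply mul_lt_mul'' (Real.rpow_lt_rpow ht.le hx hs1') (Real.rpow_lt_rpow ht.le hy hs0)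
      · positivity
      · positivity
    have e3 := H x y
    show t < (min (h ((1 - s) * x + s * y)) 1).toReal
    have e4 : ENNReal.ofReal t < min (h ((1 - s) * x + s * y)) 1 := by
      rw [lt_min_iff]
      constructor
      · exact lt_of_lt_of_le ((ENNReal.ofReal_lt_ofReal_iff (lt_trans ht e2)).2 e2) e3
      · simpa using h1
    have e5 := (ENNReal.toReal_lt_toReal (by simp) (by simp)).2 e4
    rwa [ENNReal.toReal_ofReal ht.le] at e5
  · have e2 : {a | t < f a} = ∅ := by
      ext x; simp only [mem_ofPred_eq, mem_empty_iff_false, iff_false, not_lt]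
      exact (hf1 x).trans h1
    have e3 : {a | t < g a} = ∅ := by
      ext x; simp only [mem_ofPred_eq, mem_empty_iff_false, iff_false, not_lt]
      exact (hg1 x).trans h1
    simp [e2, e3]

/-- one-dimensional Prekopa-Leindler for bounded functions -/
lemma pl1 {f g h : ℝ → ℝ≥0∞} (hf : Measurable f) (hg : Measurable g)
    (hh : Measurable h) (hf1 : ∀ x, f x ≤ 1) (hg1 : ∀ x, g x ≤ 1)
    {s : ℝ} (hs0 : 0 < s) (hs1 : s < 1)
    (H : ∀ x y, f x ^ (1 - s) * g y ^ s ≤ h ((1 - s) * x + s * y)) :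
    (∫⁻ x, f x) ^ (1 - s) * (∫⁻ x, g x) ^ s ≤ ∫⁻ x, h x := by
  have hs1' : 0 < 1 - s := by linarith
  set a := ⨆ x, f x with ha
  set b := ⨆ x, g x with hb
  have ha1 : a ≤ 1 := iSup_le hf1
  have hb1 : b ≤ 1 := iSup_le hg1
  have hat : a ≠ ⊤ := ne_top_of_le_ne_top (by simp) ha1
  have hbt : b ≠ ⊤ := ne_top_of_le_ne_top (by simp) hb1
  rcases eq_or_ne a 0 with ha0 | ha0
  · have : ∀ x, f x = 0 := by
      intro x
      have := le_iSup f x
      rw [← ha, ha0] at this
      simpa using this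
    simp [this, hs1']
  rcases eq_or_ne b 0 with hb0 | hb0
  · have : ∀ x, g x = 0 := by
      intro x
      have := le_iSup g x
      rw [← hb, hb0] at this
      simpa using this
    simp [this, hs0]
  set c := a ^ (1 - s) * b ^ s with hc
  have hc0 : c ≠ 0 := by
    rw [hc]
    refine mul_ne_zero ?_ ?_
    · exact (ENNReal.rpow_pos (pos_iff_ne_zero.2 ha0) hat).ne'
    · exact (ENNReal.rpow_pos (pos_iff_ne_zero.2 hb0) hbt).ne'
  have hct : c ≠ ⊤ := by
    rw [hc]
    refine ENNReal.mul_ne_top ?_ ?_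
    · exact ENNReal.rpow_ne_top_of_nonneg hs1'.le hat
    · exact ENNReal.rpow_ne_top_of_nonneg hs0.le hbt
  have fa : ∀ x, f x / a ≤ 1 := fun x => by
    rw [ENNReal.div_le_iff ha0 hat, one_mul]; exact le_iSup f x
  have gb : ∀ x, g x / b ≤ 1 := fun x => by
    rw [ENNReal.div_le_iff hb0 hbt, one_mul]; exact le_iSup g x
  have fat : ∀ x, f x / a ≠ ⊤ := fun x => ne_top_of_le_ne_top (by simp) (fa x)
  have gbt : ∀ x, g x / b ≠ ⊤ := fun x => ne_top_of_le_ne_top (by simp) (gb x)
  have key := pl1_norm (f := fun x => (f x / a).toReal) (g := fun x => (g x / b).toReal)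
    (h := fun x => h x / c) ((hf.div_const a).ennreal_toReal) ((hg.div_const b).ennreal_toReal)
    (hh.div_const c) (fun x => ENNReal.toReal_nonneg) (fun x => by
      have := (ENNReal.toReal_le_toReal (fat x) (by simp)).2 (fa x)
      simpa using this) (fun x => ENNReal.toReal_nonneg) (fun x => by
      have := (ENNReal.toReal_le_toReal (gbt x) (by simp)).2 (gb x)
      simpa using this) (fun t ht => by
      rcases lt_or_ge t 0 with h0 | h0
      · exact ⟨0, lt_of_lt_of_le h0 ENNReal.toReal_nonneg⟩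
      have : ENNReal.ofReal t * a < a := by
        calc ENNReal.ofReal t * a < 1 * a := by
              apply ENNReal.mul_lt_mul_left ha0 hat
              simpa using ht
          _ = a := one_mul a
      obtain ⟨x, hx⟩ := lt_iSup_iff.1 (lt_of_lt_of_eq this ha)
      refine ⟨x, ?_⟩
      have h2 : ENNReal.ofReal t < f x / a := by
        rw [ENNReal.lt_div_iff_mul_lt (Or.inl ha0) (Or.inl hat)]
        exact hx
      have e5 := (ENNReal.toReal_lt_toReal (by simp) (fat x)).2 h2
      rwa [ENNReal.toReal_ofReal h0] at e5) (fun t ht => by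
      rcases lt_or_ge t 0 with h0 | h0
      · exact ⟨0, lt_of_lt_of_le h0 ENNReal.toReal_nonneg⟩
      have : ENNReal.ofReal t * b < b := by
        calc ENNReal.ofReal t * b < 1 * b := by
              apply ENNReal.mul_lt_mul_left hb0 hbt
              simpa using ht
          _ = b := one_mul b
      obtain ⟨x, hx⟩ := lt_iSup_iff.1 (lt_of_lt_of_eq this hb)
      refine ⟨x, ?_⟩
      have h2 : ENNReal.ofReal t < g x / b := by
        rw [ENNReal.lt_div_iff_mul_lt (Or.inl hb0) (Or.inl hbt)]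
        exact hx
      have e5 := (ENNReal.toReal_lt_toReal (by simp) (gbt x)).2 h2
      rwa [ENNReal.toReal_ofReal h0] at e5) hs0 hs1 (by
      intro x y
      rw [ENNReal.ofReal_mul (by positivity), ← ENNReal.ofReal_rpow_of_nonneg ENNReal.toReal_nonneg hs1'.le,
        ← ENNReal.ofReal_rpow_of_nonneg ENNReal.toReal_nonneg hs0.le, ENNReal.ofReal_toReal (fat x),
        ENNReal.ofReal_toReal (gbt y), ENNReal.div_rpow_of_nonneg _ _ hs1'.le,
        ENNReal.div_rpow_of_nonneg _ _ hs0.le]
      have : f x ^ (1 - s) / a ^ (1 - s) * (g y ^ s / b ^ s) = f x ^ (1 - s) * g y ^ s / c := by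
        rw [hc, div_eq_mul_inv, div_eq_mul_inv, div_eq_mul_inv, ENNReal.mul_inv]
        · ring
        · left; exact (ENNReal.rpow_pos (pos_iff_ne_zero.2 ha0) hat).ne'
        · left; exact ENNReal.rpow_ne_top_of_nonneg hs1'.le hat
      rw [this]
      gcongr
      exact H x y)
  have e1 : ∀ x, ENNReal.ofReal (f x / a).toReal = f x / a := fun x =>
    ENNReal.ofReal_toReal (fat x)
  have e2 : ∀ x, ENNReal.ofReal (g x / b).toReal = g x / b := fun x =>
    ENNReal.ofReal_toReal (gbt x)
  simp only [e1, e2] at key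
  have e3 := (amgm hs0 hs1 _ _).trans key
  simp only [div_eq_mul_inv] at e3
  rw [lintegral_mul_const _ hf, lintegral_mul_const _ hg, lintegral_mul_const _ hh] at e3
  rw [ENNReal.mul_rpow_of_nonneg _ _ hs1'.le, ENNReal.mul_rpow_of_nonneg _ _ hs0.le,
    ENNReal.inv_rpow, ENNReal.inv_rpow] at e3
  have e4 : (∫⁻ x, f x) ^ (1 - s) * (a ^ (1 - s))⁻¹ * ((∫⁻ x, g x) ^ s * (b ^ s)⁻¹) =
      (∫⁻ x, f x) ^ (1 - s) * (∫⁻ x, g x) ^ s * c⁻¹ := by
    rw [hc, ENNReal.mul_inv]
    · ring
    · left; exact (ENNReal.rpow_pos (pos_iff_ne_zero.2 ha0) hat).ne'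
    · left; exact ENNReal.rpow_ne_top_of_nonneg hs1'.le hat
  rw [e4] at e3
  have e5 : ∀ X : ℝ≥0∞, X * c⁻¹ * c = X := fun X => by
    rw [mul_assoc, ENNReal.inv_mul_cancel hc0 hct, mul_one]
  have := mul_le_mul_left e3 c
  rw [e5, e5] at this
  exact this

/-- The Prekopa-Leindler property of a measure, for functions bounded by one. -/
def PLProp {V : Type*} [AddCommGroup V] [Module ℝ V] [MeasurableSpace V] (μ : Measure V) : Prop :=
  ∀ (s : ℝ), 0 < s → s < 1 → ∀ f g h : V → ℝ≥0∞, Measurable f → Measurable g → Measurable h →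
    (∀ x, f x ≤ 1) → (∀ x, g x ≤ 1) →
    (∀ x y, f x ^ (1 - s) * g y ^ s ≤ h ((1 - s) • x + s • y)) →
    (∫⁻ x, f x ∂μ) ^ (1 - s) * (∫⁻ x, g x ∂μ) ^ s ≤ ∫⁻ x, h x ∂μ

lemma pl_gauss : PLProp (gaussianReal 0 1) := by
  intro s hs0 hs1 f g h hf hg hh hf1 hg1 H
  have hs1' : 0 < 1 - s := by linarith
  rw [gaussianReal_of_var_ne_zero 0 one_ne_zero]
  have mp := measurable_gaussianPDF 0 1
  rw [lintegral_withDensity_eq_lintegral_mul _ mp hf, lintegral_withDensity_eq_lintegral_mul _ mp hg,
    lintegral_withDensity_eq_lintegral_mul _ mp hh]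
  have pdf1 : ∀ x, gaussianPDF 0 1 x ≤ 1 := by
    intro x
    rw [gaussianPDF]
    apply ENNReal.ofReal_le_one.2
    rw [gaussianPDFReal]
    have h1 : (√(2 * Real.pi * (1:ℝ≥0)))⁻¹ ≤ 1 := by
      apply inv_le_one_of_one_le₀
      rw [Real.one_le_sqrt]
      have := Real.pi_gt_three
      push_cast
      linarith
    have h2 : Real.exp (-(x - 0) ^ 2 / (2 * (1:ℝ≥0))) ≤ 1 := by
      rw [Real.exp_le_one_iff]
      have := sq_nonneg (x - 0)
      push_cast
      linarith
    calc _ ≤ (1:ℝ) * 1 := by gcongr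
      _ = 1 := one_mul 1
  refine pl1 (mp.mul hf) (mp.mul hg) (mp.mul hh) ?_ ?_ hs0 hs1 ?_
  · intro x
    calc _ ≤ (1:ℝ≥0∞) * 1 := by
          simp only [Pi.mul_apply]
          gcongr
          · exact pdf1 x
          · exact hf1 x
      _ = 1 := one_mul 1
  · intro x
    calc _ ≤ (1:ℝ≥0∞) * 1 := by
          simp only [Pi.mul_apply]
          gcongr
          · exact pdf1 x
          · exact hg1 x
      _ = 1 := one_mul 1
  · intro x y
    simp only [Pi.mul_apply]
    rw [ENNReal.mul_rpow_of_nonneg _ _ hs1'.le, ENNReal.mul_rpow_of_nonneg _ _ hs0.le]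
    have e1 : gaussianPDF 0 1 x ^ (1 - s) * gaussianPDF 0 1 y ^ s ≤
        gaussianPDF 0 1 ((1 - s) * x + s * y) := by
      rw [gaussianPDF, gaussianPDF, gaussianPDF,
        ENNReal.ofReal_rpow_of_nonneg (gaussianPDFReal_nonneg _ _ _) hs1'.le,
        ENNReal.ofReal_rpow_of_nonneg (gaussianPDFReal_nonneg _ _ _) hs0.le,
        ← ENNReal.ofReal_mul (Real.rpow_nonneg (gaussianPDFReal_nonneg _ _ _) _)]
      apply ENNReal.ofReal_le_ofReal
      simp only [gaussianPDFReal]
      rw [Real.mul_rpow (by positivity) (by positivity), Real.mul_rpow (by positivity) (by positivity),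
        ← Real.exp_mul, ← Real.exp_mul]
      set c := (√(2 * Real.pi * (1:ℝ≥0)))⁻¹ with hc
      have hc0 : 0 < c := by positivity
      have : c ^ (1 - s) * c ^ s = c := by
        rw [← Real.rpow_add hc0]; simp
      calc c ^ (1 - s) * Real.exp (-(x - 0) ^ 2 / (2 * (1:ℝ≥0)) * (1 - s)) *
            (c ^ s * Real.exp (-(y - 0) ^ 2 / (2 * (1:ℝ≥0)) * s)) =
            (c ^ (1 - s) * c ^ s) * (Real.exp (-(x - 0) ^ 2 / (2 * (1:ℝ≥0)) * (1 - s)) *
              Real.exp (-(y - 0) ^ 2 / (2 * (1:ℝ≥0)) * s)) := by ring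
        _ ≤ c * Real.exp (-((1 - s) * x + s * y - 0) ^ 2 / (2 * (1:ℝ≥0))) := by
            rw [this, ← Real.exp_add]
            gcongr
            push_cast
            nlinarith [mul_nonneg (mul_nonneg hs0.le hs1'.le) (sq_nonneg (x - y))]
    calc gaussianPDF 0 1 x ^ (1 - s) * f x ^ (1 - s) * (gaussianPDF 0 1 y ^ s * g y ^ s) =
        (gaussianPDF 0 1 x ^ (1 - s) * gaussianPDF 0 1 y ^ s) * (f x ^ (1 - s) * g y ^ s) := by ring
      _ ≤ _ := by
        gcongr
        exact H x y

lemma PLProp.prod {V W : Type*} [AddCommGroup V] [Module ℝ V] [MeasurableSpace V]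
    [AddCommGroup W] [Module ℝ W] [MeasurableSpace W] {μ : Measure V} {ν : Measure W}
    [IsProbabilityMeasure μ] [IsProbabilityMeasure ν] (hμ : PLProp μ) (hν : PLProp ν) :
    PLProp (μ.prod ν) := by
  intro s hs0 hs1 f g h hf hg hh hf1 hg1 H
  rw [lintegral_prod _ hf.aemeasurable, lintegral_prod _ hg.aemeasurable,
    lintegral_prod _ hh.aemeasurable]
  refine hμ s hs0 hs1 _ _ _ hf.lintegral_prod_right' hg.lintegral_prod_right'
    hh.lintegral_prod_right' ?_ ?_ ?_
  · intro x
    calc _ ≤ ∫⁻ y, 1 ∂ν := lintegral_mono fun y => hf1 _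
      _ = 1 := by simp
  · intro x
    calc _ ≤ ∫⁻ y, 1 ∂ν := lintegral_mono fun y => hg1 _
      _ = 1 := by simp
  · intro x y
    refine hν s hs0 hs1 _ _ _ (hf.comp measurable_prodMk_left) (hg.comp measurable_prodMk_left)
      (hh.comp measurable_prodMk_left) (fun _ => hf1 _) (fun _ => hg1 _) ?_
    intro w z
    exact H (x, w) (y, z)

lemma PLProp.map {V W : Type*} [AddCommGroup V] [Module ℝ V] [MeasurableSpace V]
    [AddCommGroup W] [Module ℝ W] [MeasurableSpace W] {μ : Measure V} (hμ : PLProp μ)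
    {T : V → W} (hT : Measurable T)
    (hlin : ∀ (s : ℝ) (x y : V), T ((1 - s) • x + s • y) = (1 - s) • T x + s • T y) :
    PLProp (μ.map T) := by
  intro s hs0 hs1 f g h hf hg hh hf1 hg1 H
  rw [lintegral_map hf hT, lintegral_map hg hT, lintegral_map hh hT]
  refine hμ s hs0 hs1 _ _ _ (hf.comp hT) (hg.comp hT) (hh.comp hT) (fun _ => hf1 _)
    (fun _ => hg1 _) ?_
  intro x y
  rw [hlin]
  exact H _ _

lemma pl_pi (m : ℕ) : PLProp (Measure.pi (fun _ : Fin m => gaussianReal 0 1)) := by
  induction m with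
  | zero =>
    intro s hs0 hs1 f g h hf hg hh hf1 hg1 H
    rw [lintegral_unique, lintegral_unique, lintegral_unique]
    simp only [measure_univ, mul_one]
    exact (H _ _).trans (le_of_eq (congrArg h (Subsingleton.elim _ _)))
  | succ m ih =>
    have mp := (measurePreserving_piFinSuccAbove (fun _ : Fin (m+1) => gaussianReal 0 1) 0).symm
    rw [← mp.map_eq]
    refine (pl_gauss.prod ih).map (MeasurableEquiv.measurable _) ?_
    intro s x y
    ext i
    refine Fin.cases ?_ (fun j => ?_) i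
    · simp [MeasurableEquiv.piFinSuccAbove]
    · simp [MeasurableEquiv.piFinSuccAbove]

lemma pl_stdGaussian (E : Type*) [NormedAddCommGroup E] [InnerProductSpace ℝ E]
    [FiniteDimensional ℝ E] [MeasurableSpace E] [BorelSpace E] : PLProp (stdGaussian E) := by
  rw [stdGaussian_eq_map_pi_orthonormalBasis (stdOrthonormalBasis ℝ E)]
  refine (pl_pi _).map (by fun_prop) ?_
  intro s x y
  simp [add_smul, mul_smul, Finset.sum_add_distrib, Finset.smul_sum]

lemma PLProp.bm {V : Type*} [AddCommGroup V] [Module ℝ V] [MeasurableSpace V] {μ : Measure V}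
    (hμ : PLProp μ) {s : ℝ} (hs0 : 0 < s) (hs1 : s < 1) {A B C : Set V}
    (hA : MeasurableSet A) (hB : MeasurableSet B) (hC : MeasurableSet C)
    (h : ∀ x ∈ A, ∀ y ∈ B, (1 - s) • x + s • y ∈ C) :
    (μ A) ^ (1 - s) * (μ B) ^ s ≤ μ C := by
  have hs1' : 0 < 1 - s := by linarith
  have := hμ s hs0 hs1 (A.indicator 1) (B.indicator 1) (C.indicator 1)
    (measurable_one.indicator hA) (measurable_one.indicator hB) (measurable_one.indicator hC)
    (fun x => indicator_le_self' (by simp) x) (fun x => indicator_le_self' (by simp) x) ?_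
  · simpa [lintegral_indicator_one, hA, hB, hC] using this
  · intro x y
    by_cases hx : x ∈ A
    · by_cases hy : y ∈ B
      · simp [hx, hy, h x hx y hy]
      · simp [hy, hs0]
    · simp [hx, hs1']

/-- abbreviation for the one-dimensional standard Gaussian -/
noncomputable abbrev g1 : Measure ℝ := gaussianReal 0 1

/-- Gaussian density -/
noncomputable def ph (x : ℝ) : ℝ := gaussianPDFReal 0 1 x

lemma ph_pos (x : ℝ) : 0 < ph x := gaussianPDFReal_pos 0 1 x one_ne_zero

lemma ph_eq (x : ℝ) : ph x = (√(2 * Real.pi))⁻¹ * Real.exp (-x ^ 2 / 2) := by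
  simp [ph, gaussianPDFReal]

lemma ph_le_one (x : ℝ) : ph x ≤ 1 := by
  rw [ph_eq]
  have h1 : (√(2 * Real.pi))⁻¹ ≤ 1 := by
    apply inv_le_one_of_one_le₀
    rw [Real.one_le_sqrt]
    have := Real.pi_gt_three
    linarith
  have h2 : Real.exp (-x ^ 2 / 2) ≤ 1 := by
    rw [Real.exp_le_one_iff]
    have := sq_nonneg x
    linarith
  calc _ ≤ (1:ℝ) * 1 := by gcongr
    _ = 1 := one_mul 1

lemma ph_le_half (x : ℝ) : ph x ≤ 1 / 2 := by
  rw [ph_eq]
  have h1 : (√(2 * Real.pi))⁻¹ ≤ 1 / 2 := by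
    rw [one_div]
    apply inv_anti₀ (by norm_num)
    apply Real.le_sqrt_of_sq_le
    have := Real.pi_gt_three
    nlinarith
  have h2 : Real.exp (-x ^ 2 / 2) ≤ 1 := by
    rw [Real.exp_le_one_iff]
    have := sq_nonneg x
    linarith
  calc _ ≤ (1/2:ℝ) * 1 := by gcongr
    _ = 1/2 := by norm_num

lemma g1_eq (A : Set ℝ) (hA : MeasurableSet A) :
    g1 A = ∫⁻ x in A, ENNReal.ofReal (ph x) := by
  rw [g1, gaussianReal_of_var_ne_zero 0 one_ne_zero, withDensity_apply _ hA]
  rfl

lemma g1_le_vol (A : Set ℝ) (hA : MeasurableSet A) :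
    g1 A ≤ ENNReal.ofReal (1/2) * volume A := by
  rw [g1_eq A hA]
  calc _ ≤ ∫⁻ x in A, ENNReal.ofReal (1/2) := lintegral_mono fun x =>
        ENNReal.ofReal_le_ofReal (ph_le_half x)
    _ = _ := by simp

lemma ph_anti {x R : ℝ} (h : |x| ≤ R) : ph R ≤ ph x := by
  have h2 : x ^ 2 ≤ R ^ 2 := sq_le_sq' (abs_le.1 h).1 (abs_le.1 h).2
  rw [ph_eq, ph_eq]
  apply mul_le_mul_of_nonneg_left _ (by positivity)
  exact Real.exp_le_exp.2 (by linarith)

lemma le_g1 (A : Set ℝ) (hA : MeasurableSet A) {R : ℝ} (hR : ∀ x ∈ A, |x| ≤ R) :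
    ENNReal.ofReal (ph R) * volume A ≤ g1 A := by
  rw [g1_eq A hA]
  calc _ = ∫⁻ x in A, ENNReal.ofReal (ph R) := by simp
    _ ≤ _ := setLIntegral_mono' hA fun x hx => ENNReal.ofReal_le_ofReal (ph_anti (hR x hx))

lemma mgf_g1 (t : ℝ) : mgf id g1 t = Real.exp (t ^ 2 / 2) := by
  have := mgf_gaussianReal (p := g1) (μ := 0) (v := 1) (X := id) (by simp) t
  simpa using this

lemma integrable_exp_g1 (t : ℝ) : Integrable (fun x => Real.exp (t * id x)) g1 := by
  simpa using integrable_exp_mul_gaussianReal (μ := 0) (v := 1) t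

/-- Tail bound -/
lemma tail (k X : ℝ) (hk : 0 ≤ k) :
    g1.real {x | X < |x|} ≤ 2 * Real.exp (k ^ 2 / 2 - k * X) := by
  have h1 := measure_ge_le_exp_mul_mgf (μ := g1) (X := id) (t := k) X hk (integrable_exp_g1 k)
  have h2 := measure_le_le_exp_mul_mgf (μ := g1) (X := id) (t := -k) (-X) (by linarith)
    (integrable_exp_g1 (-k))
  rw [mgf_g1, ← Real.exp_add] at h1 h2
  have hsub : {x : ℝ | X < |x|} ⊆ {x | X ≤ id x} ∪ {x | id x ≤ -X} := by
    intro x hx
    have hx : X < |x| := hx
    rcases lt_abs.1 hx with h | h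
    · left; exact h.le
    · right; show x ≤ -X; linarith
  calc g1.real {x | X < |x|} ≤ g1.real ({x | X ≤ id x} ∪ {x | id x ≤ -X}) :=
        measureReal_mono hsub
    _ ≤ _ := measureReal_union_le _ _
    _ ≤ _ := by
      have e1 : -k * X + k ^ 2 / 2 = k ^ 2 / 2 - k * X := by ring
      have e2 : - -k * -X + (-k) ^ 2 / 2 = k ^ 2 / 2 - k * X := by ring
      rw [e1] at h1
      rw [e2] at h2
      linarith

lemma tail_exists {ε : ℝ} (hε : 0 < ε) : ∃ M : ℝ, 0 ≤ M ∧ g1.real {x | M < |x|} < ε := by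
  have ht : Filter.Tendsto (fun M : ℝ => 2 * Real.exp ((1:ℝ) ^ 2 / 2 - 1 * M)) Filter.atTop
      (nhds (2 * 0)) := by
    apply Filter.Tendsto.const_mul
    apply Real.tendsto_exp_atBot.comp
    have : Filter.Tendsto (fun M : ℝ => -M + 1/2) Filter.atTop Filter.atBot :=
      Filter.tendsto_atBot_add_const_right _ _ Filter.tendsto_neg_atTop_atBot
    refine this.congr fun M => by ring
  rw [mul_zero] at ht
  obtain ⟨M, hM1, hM2⟩ := ((ht.eventually (gt_mem_nhds hε)).and (Filter.eventually_ge_atTop 0)).exists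
  exact ⟨M, hM2, lt_of_le_of_lt (tail 1 M zero_le_one) hM1⟩

lemma meas_abs (M : ℝ) : MeasurableSet {x : ℝ | M < |x|} :=
  measurableSet_lt measurable_const (by fun_prop)

/-- coarse-scale lemma -/
lemma coarse {q2 : ℝ} (hq2 : 0 < q2) : ∃ q1 : ℝ, 0 < q1 ∧ q1 < q2 ∧ ∀ (η X : ℝ), 2 ≤ X →
    g1.real {x | X < |x|} < η → ∀ A B C : Set ℝ, MeasurableSet A → MeasurableSet B →
    MeasurableSet C → (∀ x ∈ A, ∀ y ∈ B, (1 - X⁻¹) * x + X⁻¹ * y ∈ C) →
    q2 ≤ g1.real A → η ≤ g1.real B → q1 ≤ g1.real C := by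
  obtain ⟨M, hM0, hM⟩ := tail_exists (ε := q2 / 2) (by linarith)
  have hph := ph_pos (M + 1)
  have hph2 := ph_le_half (M + 1)
  refine ⟨ph (M + 1) * (q2 / 2), by positivity, by nlinarith, ?_⟩
  intro η X hX hη A B C hA hB hC hABC hAq hBη
  have hX0 : 0 < X := by linarith
  -- a point of B in [-X, X]
  obtain ⟨b, hbB, hbX⟩ : ∃ b ∈ B, |b| ≤ X := by
    by_contra hcon
    push Not at hcon
    have : g1.real B ≤ g1.real {x | X < |x|} := measureReal_mono fun x hx => hcon x hx
    linarith
  set A' := A ∩ {x | M < |x|}ᶜ with hA'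
  have hA'm : MeasurableSet A' := hA.inter (meas_abs M).compl
  have h1 : q2 / 2 ≤ g1.real A' := by
    have : g1.real A ≤ g1.real A' + g1.real {x | M < |x|} := by
      calc g1.real A ≤ g1.real (A' ∪ {x | M < |x|}) := by
            refine measureReal_mono ?_
            intro x hx
            by_cases h : M < |x|
            · right; exact h
            · left; exact ⟨hx, h⟩
        _ ≤ _ := measureReal_union_le _ _
    linarith
  set s := X⁻¹ with hs
  have hs0 : 0 < s := by positivity
  have hs1 : s ≤ 1 / 2 := by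
    rw [hs, one_div]; exact inv_anti₀ (by norm_num) hX
  have hsX : s * X = 1 := by rw [hs]; exact inv_mul_cancel₀ hX0.ne'
  set T := (fun x => (1 - s) * x + s * b) '' A' with hT
  have hT' : T = (fun z => z + s * b) '' ((1 - s) • A') := by
    rw [hT, ← Set.image_smul, Set.image_image]
    rfl
  have hvT : volume T = ENNReal.ofReal (1 - s) * volume A' := by
    rw [hT']
    simp only [Set.image_add_right, measure_preimage_add_right]
    rw [Measure.addHaar_smul]
    simp only [Module.finrank_self, pow_one]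
    rw [abs_of_pos (by linarith)]
  have hTm : MeasurableSet T := by
    rw [hT']
    exact ((hA'm.const_smul₀ _).image_of_measurable_injOn (by fun_prop)
      (fun x _ y _ h => by simpa using h))
  have hTR : ∀ x ∈ T, |x| ≤ M + 1 := by
    rintro _ ⟨x, ⟨hxA, hxM⟩, rfl⟩
    have hxM : |x| ≤ M := not_lt.1 hxM
    calc |(1 - s) * x + s * b| ≤ |(1 - s) * x| + |s * b| := abs_add_le _ _
      _ = (1 - s) * |x| + s * |b| := by
          rw [abs_mul, abs_mul, abs_of_pos hs0, abs_of_pos (by linarith : 0 < 1 - s)]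
      _ ≤ 1 * M + s * X := by
          gcongr
          linarith
      _ = M + 1 := by rw [hsX]; ring
  have hTC : T ⊆ C := by
    rintro _ ⟨x, ⟨hxA, hxM⟩, rfl⟩
    exact hABC x hxA b hbB
  have h2 := le_g1 T hTm hTR
  have h3 := g1_le_vol A' hA'm
  have h4 : g1.real T ≤ g1.real C := measureReal_mono hTC
  refine le_trans ?_ h4
  rw [hvT] at h2
  have h5 : ENNReal.ofReal (q2 / 2) ≤ g1 A' := by
    rw [ENNReal.ofReal_le_iff_le_toReal (measure_ne_top _ _)]
    exact h1
  have h6 : ENNReal.ofReal (ph (M + 1) * (q2 / 2)) ≤ g1 T := by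
    calc ENNReal.ofReal (ph (M + 1) * (q2 / 2)) =
          ENNReal.ofReal (ph (M + 1)) * ENNReal.ofReal (q2 / 2) :=
          ENNReal.ofReal_mul hph.le
      _ ≤ ENNReal.ofReal (ph (M + 1)) * (ENNReal.ofReal (1/2) * volume A') := by
          gcongr
          exact h5.trans h3
      _ ≤ ENNReal.ofReal (ph (M + 1)) * (ENNReal.ofReal (1 - s) * volume A') := by
          gcongr
          linarith
      _ ≤ _ := h2
  rwa [ENNReal.ofReal_le_iff_le_toReal (measure_ne_top _ _)] at h6

/-- gain lemma -/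
lemma gain {q1 : ℝ} (hq1 : 0 < q1) : ∃ c : ℝ, 0 < c ∧ c ≤ 1 / 2 ∧ ∀ (r : ℝ), 0 < r → r ≤ 1 →
    ∀ I : Set ℝ, I.OrdConnected → q1 ≤ g1.real I → g1.real I ≤ 1 / 2 →
    ∀ J : Set ℝ, MeasurableSet J → (∀ x, (∃ y ∈ I, |x - y| ≤ r) → x ∈ J) →
    g1 I + ENNReal.ofReal (c * r) ≤ g1 J := by
  obtain ⟨M, hM0, hM⟩ := tail_exists (ε := min q1 (1/2)) (by positivity)
  refine ⟨ph (M + 1), ph_pos _, ph_le_half _, ?_⟩
  intro r hr0 hr1 I hI hIq hI2 J hJ hIJ
  have hM1 : g1.real {x | M < |x|} < q1 := lt_of_lt_of_le hM (min_le_left _ _)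
  have hM2 : g1.real {x | M < |x|} < 1/2 := lt_of_lt_of_le hM (min_le_right _ _)
  obtain ⟨x0, hx0I, hx0⟩ : ∃ b ∈ I, |b| ≤ M := by
    by_contra hcon
    push Not at hcon
    have : g1.real I ≤ g1.real {x | M < |x|} := measureReal_mono fun x hx => hcon x hx
    linarith
  obtain ⟨x1, hx1I, hx1⟩ : ∃ b, b ∉ I ∧ |b| ≤ M := by
    by_contra hcon
    push Not at hcon
    have h1 : g1.real {x | M < |x|}ᶜ ≤ g1.real I := by
      refine measureReal_mono ?_
      intro x hx
      by_contra hxI
      exact hx (hcon x hxI)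
    have h2 := measureReal_compl (μ := g1) (meas_abs M)
    rw [probReal_univ] at h2
    linarith
  have hmI : MeasurableSet I := hI.measurableSet
  have hsubJ : I ⊆ J := fun x hx => hIJ x ⟨x, hx, by simp [hr0.le]⟩
  -- a piece of length r outside I inside J
  obtain ⟨T, hTm, hTd, hTJ, hTv, hTR⟩ : ∃ T : Set ℝ, MeasurableSet T ∧ Disjoint I T ∧ T ⊆ J ∧
      volume T = ENNReal.ofReal r ∧ ∀ x ∈ T, |x| ≤ M + 1 := by
    have ax0 := abs_le.1 hx0
    have ax1 := abs_le.1 hx1
    rcases lt_or_gt_of_ne (show x0 ≠ x1 from fun h => hx1I (h ▸ hx0I)) with hlt | hlt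
    · -- x0 < x1, use sup of I
      have hbd : ∀ y ∈ I, y < x1 := by
        intro y hy
        by_contra hcon
        push Not at hcon
        exact hx1I (hI.out hx0I hy ⟨hlt.le, hcon⟩)
      have hbdd : BddAbove I := ⟨x1, fun y hy => (hbd y hy).le⟩
      set b := sSup I with hb
      have hb0 : x0 ≤ b := le_csSup hbdd hx0I
      have hb1 : b ≤ x1 := csSup_le ⟨x0, hx0I⟩ fun y hy => (hbd y hy).le
      refine ⟨Ioo b (b + r), measurableSet_Ioo, ?_, ?_, by simp, ?_⟩
      · rw [Set.disjoint_left]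
        intro y hy hy'
        have := le_csSup hbdd hy
        exact absurd hy'.1 (not_lt.2 this)
      · intro y hy
        obtain ⟨z, hz, hz'⟩ := exists_lt_of_lt_csSup ⟨x0, hx0I⟩ (show y - r < sSup I by
          rw [← hb]; linarith [hy.2])
        refine hIJ y ⟨z, hz, ?_⟩
        have := le_csSup hbdd hz
        rw [abs_le]
        constructor <;> linarith [hy.1]
      · intro y hy
        rw [abs_le]
        constructor <;> linarith [hy.1, hy.2]
    · have hbd : ∀ y ∈ I, x1 < y := by
        intro y hy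
        by_contra hcon
        push Not at hcon
        exact hx1I (hI.out hy hx0I ⟨hcon, hlt.le⟩)
      have hbdd : BddBelow I := ⟨x1, fun y hy => (hbd y hy).le⟩
      set b := sInf I with hb
      have hb0 : b ≤ x0 := csInf_le hbdd hx0I
      have hb1 : x1 ≤ b := le_csInf ⟨x0, hx0I⟩ fun y hy => (hbd y hy).le
      refine ⟨Ioo (b - r) b, measurableSet_Ioo, ?_, ?_, by simp, ?_⟩
      · rw [Set.disjoint_left]
        intro y hy hy'
        have := csInf_le hbdd hy
        exact absurd hy'.2 (not_lt.2 this)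
      · intro y hy
        obtain ⟨z, hz, hz'⟩ := exists_lt_of_csInf_lt ⟨x0, hx0I⟩ (show sInf I < y + r by
          rw [← hb]; linarith [hy.1])
        refine hIJ y ⟨z, hz, ?_⟩
        have := csInf_le hbdd hz
        rw [abs_le]
        constructor <;> linarith [hy.2]
      · intro y hy
        rw [abs_le]
        constructor <;> linarith [hy.1, hy.2]
  calc g1 I + ENNReal.ofReal (ph (M + 1) * r) = g1 I + ENNReal.ofReal (ph (M + 1)) * volume T := by
        rw [hTv, ENNReal.ofReal_mul (ph_pos _).le]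
    _ ≤ g1 I + g1 T := by
        gcongr
        exact le_g1 T hTm hTR
    _ = g1 (I ∪ T) := (measure_union hTd hTm).symm
    _ ≤ g1 J := measure_mono (union_subset hsubJ hTJ)

lemma p_r_le {r : ℝ} (hr : 0 ≤ r) : g1.real (Icc (-r) r) ≤ r := by
  have h := g1_le_vol (Icc (-r) r) measurableSet_Icc
  rw [Real.volume_Icc, ← ENNReal.ofReal_mul (by norm_num)] at h
  have := ENNReal.toReal_le_of_le_ofReal (by linarith) h
  rw [measureReal_def]
  linarith

lemma p_r_pos {r : ℝ} (hr : 0 < r) : 0 < g1.real (Icc (-r) r) := by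
  have h := le_g1 (Icc (-r) r) measurableSet_Icc (R := r) (fun x hx => abs_le.2 hx)
  rw [Real.volume_Icc, ← ENNReal.ofReal_mul (ph_pos r).le,
    ENNReal.ofReal_le_iff_le_toReal (measure_ne_top _ _)] at h
  refine lt_of_lt_of_le ?_ h
  have := ph_pos r
  have : 0 < r - -r := by linarith
  positivity

lemma PLProp.bm_log {V : Type*} [AddCommGroup V] [Module ℝ V] [MeasurableSpace V] {μ : Measure V}
    [IsProbabilityMeasure μ]
    (hμ : PLProp μ) {s : ℝ} (hs0 : 0 < s) (hs1 : s < 1) {A B C : Set V}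
    (hA : MeasurableSet A) (hB : MeasurableSet B) (hC : MeasurableSet C)
    (hA0 : 0 < μ.real A) (hB0 : 0 < μ.real B)
    (h : ∀ x ∈ A, ∀ y ∈ B, (1 - s) • x + s • y ∈ C) :
    (1 - s) * Real.log (μ.real A) + s * Real.log (μ.real B) ≤ Real.log (μ.real C) := by
  have h1 := hμ.bm hs0 hs1 hA hB hC h
  have h2 := (ENNReal.toReal_le_toReal (by
    refine ENNReal.mul_ne_top ?_ ?_
    · exact ENNReal.rpow_ne_top_of_nonneg (by linarith) (measure_ne_top _ _)
    · exact ENNReal.rpow_ne_top_of_nonneg (by linarith) (measure_ne_top _ _))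
    (measure_ne_top _ _)).2 h1
  rw [ENNReal.toReal_mul, ← ENNReal.toReal_rpow, ← ENNReal.toReal_rpow] at h2
  change μ.real A ^ (1 - s) * μ.real B ^ s ≤ μ.real C at h2
  have h3 := Real.log_le_log (by positivity) h2
  rwa [Real.log_mul (by positivity) (by positivity), Real.log_rpow hA0, Real.log_rpow hB0] at h3

/-- integral of the layer-cake bound -/
lemma layer_int {P β : ℝ} (hP : 0 < P) (hβ0 : 0 ≤ β) (hβ : β < 1) :
    ∫⁻ t in Ioo 0 P, ENNReal.ofReal ((P / t) ^ β - 1) = ENNReal.ofReal (P * β / (1 - β)) := by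
  have e0 : ∀ t ∈ Ioo 0 P, (P / t) ^ β - 1 = P ^ β * t ^ (-β) - 1 := by
    intro t ht
    rw [Real.div_rpow hP.le ht.1.le, Real.rpow_neg ht.1.le, div_eq_mul_inv]
  have e1 : ∫⁻ t in Ioo 0 P, ENNReal.ofReal ((P / t) ^ β - 1) =
      ∫⁻ t in Ioo 0 P, ENNReal.ofReal (P ^ β * t ^ (-β) - 1) :=
    setLIntegral_congr_fun measurableSet_Ioo fun t ht => by rw [e0 t ht]
  rw [e1]
  have hint : IntervalIntegrable (fun t : ℝ => P ^ β * t ^ (-β) - 1) volume 0 P := by
    refine IntervalIntegrable.sub ?_ (by simp)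
    exact (intervalIntegral.intervalIntegrable_rpow' (by linarith)).const_mul _
  rw [← ofReal_integral_eq_lintegral_ofReal]
  · congr 1
    rw [← integral_Ioc_eq_integral_Ioo, ← intervalIntegral.integral_of_le hP.le,
      intervalIntegral.integral_sub
        ((intervalIntegral.intervalIntegrable_rpow' (by linarith)).const_mul _) (by simp),
      intervalIntegral.integral_const_mul, integral_rpow (Or.inl (by linarith))]
    have h1 : (0:ℝ) ^ (-β + 1) = 0 := Real.zero_rpow (by linarith)
    rw [h1, sub_zero]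
    have h2 : P ^ β * (P ^ (-β + 1) / (-β + 1)) = P / (1 - β) := by
      rw [mul_div_assoc', ← Real.rpow_add hP]
      congr 1
      · have : β + (-β + 1) = 1 := by ring
        rw [this, Real.rpow_one]
      · ring
    rw [h2]
    simp only [intervalIntegral.integral_const, sub_zero, smul_eq_mul, mul_one]
    have : 1 - β ≠ 0 := by linarith
    field_simp
    ring
  · rw [intervalIntegrable_iff_integrableOn_Ioc_of_le hP.le, integrableOn_Ioc_iff_integrableOn_Ioo] at hint
    exact hint
  · refine (ae_restrict_iff' measurableSet_Ioo).2 (ae_of_all _ fun t ht => ?_)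
    show 0 ≤ P ^ β * t ^ (-β) - 1
    rw [← e0 t ht]
    have : 1 ≤ (P / t) ^ β := by
      apply Real.one_le_rpow _ hβ0
      rw [one_le_div ht.1]
      exact ht.2.le
    linarith

set_option maxHeartbeats 2000000 in
theorem core {p : ℝ} (hp : 0 < p) (hp1 : p ≤ 1) : ∃ ρ : ℝ, 0 < ρ ∧
    ∀ (Y : Type) [AddCommGroup Y] [Module ℝ Y] [MeasurableSpace Y] (ν : Measure Y)
      [IsProbabilityMeasure ν], PLProp ν →
    ∀ S : Y → Set ℝ, Measurable (fun y => g1 (S y)) →
    (∀ (x y : Y) (s : ℝ), 0 < s → s < 1 → ∀ a ∈ S x, ∀ b ∈ S y,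
      (1 - s) * a + s * b ∈ S ((1 - s) • x + s • y)) →
    (∀ y, (S y).OrdConnected) →
    ENNReal.ofReal p ≤ ∫⁻ y, g1 (S y) ∂ν →
    ∀ r, 0 < r → r ≤ ρ → ∀ J : Y → Set ℝ, (∀ y, MeasurableSet (J y)) →
    (∀ y x, (∃ z ∈ S y, |x - z| ≤ r) → x ∈ J y) →
    ∫⁻ y, g1 (S y) ∂ν ≤ ∫⁻ y in {y | g1 (Icc (-r) r) ≤ g1 (S y)}, g1 (J y) ∂ν := by
  obtain ⟨q1, hq1, hq12, hcoarse⟩ := coarse (q2 := p / 2) (by linarith)
  obtain ⟨c, hc0, hc1, hgain⟩ := gain hq1
  set q2 := p / 2 with hq2
  have hq20 : 0 < q2 := by positivity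
  set k := 8 / (p * c) with hk
  have hk0 : 0 < k := by positivity
  set Ck := 3 * Real.exp (k ^ 2 / 2) with hCk
  have hCk0 : 0 < Ck := by positivity
  refine ⟨min (min 1 q1) (min (q2 ^ 2 / Ck) (Ck * Real.exp (-2 * k))), by positivity, ?_⟩
  intro Y _ _ _ ν _ hν S hS hconv hord hpS r hr0 hr J hJm hJ
  have hr1 : r ≤ 1 := hr.trans ((min_le_left _ _).trans (min_le_left _ _))
  have hrq1 : r ≤ q1 := hr.trans ((min_le_left _ _).trans (min_le_right _ _))
  have hrC1 : r ≤ q2 ^ 2 / Ck := hr.trans ((min_le_right _ _).trans (min_le_left _ _))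
  have hrC2 : r ≤ Ck * Real.exp (-2 * k) := hr.trans ((min_le_right _ _).trans (min_le_right _ _))
  set P := g1.real (Icc (-r) r) with hP
  have hP0 : 0 < P := p_r_pos hr0
  have hPr : P ≤ r := p_r_le hr0.le
  have hPq1 : P ≤ q1 := hPr.trans hrq1
  have hPq2 : P < q2 := lt_of_le_of_lt hPq1 hq12
  set F : Y → ℝ := fun y => g1.real (S y) with hF
  have hFm : Measurable F := hS.ennreal_toReal
  have hF0 : ∀ y, 0 ≤ F y := fun y => measureReal_nonneg
  have hF1 : ∀ y, F y ≤ 1 := fun y => measureReal_le_one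
  have hFS : ∀ y, ENNReal.ofReal (F y) = g1 (S y) := fun y => by
    rw [hF]; exact ENNReal.ofReal_toReal (measure_ne_top _ _)
  have hSm : ∀ y, MeasurableSet (S y) := fun y => (hord y).measurableSet
  set G : ℝ → ℝ := fun η => ν.real {y | η ≤ F y} with hG
  have hlev : ∀ η, MeasurableSet {y | η ≤ F y} := fun η => measurableSet_le measurable_const hFm
  have hGanti : ∀ a b, a ≤ b → G b ≤ G a := fun a b hab =>
    measureReal_mono (fun y hy => hab.trans hy)
  have hG1 : ∀ a, G a ≤ 1 := fun a => measureReal_le_one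
  -- lower bound for G q2
  have hG2 : p / 2 ≤ G q2 := by
    have h1 : ∫⁻ y, g1 (S y) ∂ν ≤ ν {y | q2 ≤ F y} + ENNReal.ofReal (p / 2) := by
      calc ∫⁻ y, g1 (S y) ∂ν ≤ ∫⁻ y, ({y | q2 ≤ F y}.indicator 1 y + ENNReal.ofReal (p / 2)) ∂ν := by
            apply lintegral_mono
            intro y
            simp only
            by_cases h : q2 ≤ F y
            · rw [indicator_of_mem (by exact h)]
              refine le_trans ?_ le_self_add
              simpa using prob_le_one
            · rw [indicator_of_notMem (by exact h), zero_add, ← hFS y]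
              apply ENNReal.ofReal_le_ofReal
              rw [← hq2]; linarith
        _ = _ := by
            rw [lintegral_add_left (measurable_one.indicator (hlev q2)),
              lintegral_indicator_one (hlev q2)]
            simp
    have h2 := hpS.trans h1
    have h3 : ENNReal.ofReal p ≤ ENNReal.ofReal (G q2 + p / 2) := by
      rw [ENNReal.ofReal_add measureReal_nonneg (by linarith)]
      simpa [hG, measureReal_def] using h2
    have h4 := (ENNReal.ofReal_le_ofReal_iff (by
      have : 0 ≤ G q2 := measureReal_nonneg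
      linarith)).1 h3
    linarith
  have hG20 : 0 < G q2 := by linarith
  set Δ := G q1 - G q2 with hΔ
  have hΔ0 : 0 ≤ Δ := by have := hGanti q1 q2 hq12.le; linarith
  have hΔ1 : Δ ≤ 1 := by have := hG1 q1; linarith
  set β := Δ * c / 2 with hβ
  have hβ0 : 0 ≤ β := by positivity
  have hβ1 : β ≤ 1 / 2 := by
    have : Δ * c ≤ 1 * (1/2) := by gcongr
    rw [hβ]; linarith
  -- main estimate
  have main : ∀ η, 0 < η → η < P → G η - G P ≤ (P / η) ^ β - 1 := by
    intro η hη0 hηP
    have hηq2 : η < q2 := hηP.trans hPq2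
    have hGη : 0 < G η := lt_of_lt_of_le hG20 (hGanti _ _ hηq2.le)
    have hGP : 0 < G P := lt_of_lt_of_le hG20 (hGanti _ _ hPq2.le)
    have hGq1 : 0 < G q1 := lt_of_lt_of_le hG20 (hGanti _ _ hq12.le)
    set X := Real.log (Ck / η) / k with hX
    have hηr : η ≤ r := (hηP.trans_le hPr).le
    have hkX : k * X = Real.log (Ck / η) := by rw [hX]; field_simp
    have hX2 : 2 ≤ X := by
      rw [hX, le_div_iff₀ hk0, Real.le_log_iff_exp_le (by positivity), le_div_iff₀ hη0]
      have : Real.exp (2 * k) * η ≤ Real.exp (2 * k) * (Ck * Real.exp (-2 * k)) := by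
        gcongr
        exact hηr.trans hrC2
      refine this.trans (le_of_eq ?_)
      rw [mul_left_comm, ← Real.exp_add]
      have : 2 * k + -2 * k = 0 := by ring
      rw [this]; simp
    have hX0 : 0 < X := by linarith
    have htail : g1.real {x | X < |x|} < η := by
      refine lt_of_le_of_lt (tail k X hk0.le) ?_
      rw [hkX, Real.exp_sub, Real.exp_log (by positivity), hCk]
      have : 2 * (Real.exp (k ^ 2 / 2) / (3 * Real.exp (k ^ 2 / 2) / η)) = 2 / 3 * η := by
        field_simp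
      rw [this]
      linarith
    -- coarse
    have hs0 : 0 < X⁻¹ := by positivity
    have hs1 : X⁻¹ < 1 := by
      rw [inv_lt_one₀ hX0]; linarith
    have c1 := hν.bm_log hs0 hs1 (hlev q2) (hlev η) (hlev q1) hG20 hGη (by
      intro x hx y hy
      exact hcoarse η X hX2 htail (S x) (S y) _ (hSm x) (hSm y) (hSm _)
        (fun a ha b hb => hconv x y _ hs0 hs1 a ha b hb) hx hy)
    change (1 - X⁻¹) * Real.log (G q2) + X⁻¹ * Real.log (G η) ≤ Real.log (G q1) at c1
    have c2 : Real.log (G η) - Real.log (G q2) ≤ X * (Real.log (G q1) - Real.log (G q2)) := by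
      have : X⁻¹ * (Real.log (G η) - Real.log (G q2)) ≤ Real.log (G q1) - Real.log (G q2) := by
        linarith
      have := mul_le_mul_of_nonneg_left this hX0.le
      rwa [← mul_assoc, mul_inv_cancel₀ hX0.ne', one_mul] at this
    -- fine
    have lq2η : 0 < Real.log (q2 / η) := Real.log_pos (by rw [one_lt_div hη0]; exact hηq2)
    have lq2P : 0 < Real.log (q2 / P) := Real.log_pos (by rw [one_lt_div hP0]; exact hPq2)
    have lPη : 0 < Real.log (P / η) := Real.log_pos (by rw [one_lt_div hη0]; exact hηP)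
    have lsum : Real.log (q2 / P) + Real.log (P / η) = Real.log (q2 / η) := by
      rw [← Real.log_mul (by positivity) (by positivity)]
      congr 1
      field_simp
    set s := Real.log (q2 / P) / Real.log (q2 / η) with hs
    have hs0' : 0 < s := by positivity
    have hs1' : s < 1 := by rw [hs, div_lt_one lq2η]; linarith
    have h1s : 1 - s = Real.log (P / η) / Real.log (q2 / η) := by
      rw [hs, ← lsum]; field_simp; ring
    have c3 := hν.bm_log hs0' hs1' (hlev q2) (hlev η) (hlev P) hG20 hGη (by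
      intro x hx y hy
      have hx : q2 ≤ F x := hx
      have hy : η ≤ F y := hy
      have hFx : 0 < F x := lt_of_lt_of_le hq20 hx
      have hFy : 0 < F y := lt_of_lt_of_le hη0 hy
      have := pl_gauss.bm hs0' hs1' (hSm x) (hSm y) (hSm ((1 - s) • x + s • y))
        (fun a ha b hb => hconv x y _ hs0' hs1' a ha b hb)
      have h3 := (ENNReal.toReal_le_toReal (by
        refine ENNReal.mul_ne_top ?_ ?_
        · exact ENNReal.rpow_ne_top_of_nonneg (by linarith) (measure_ne_top _ _)
        · exact ENNReal.rpow_ne_top_of_nonneg (by linarith) (measure_ne_top _ _))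
        (measure_ne_top _ _)).2 this
      rw [ENNReal.toReal_mul, ← ENNReal.toReal_rpow, ← ENNReal.toReal_rpow] at h3
      change F x ^ (1 - s) * F y ^ s ≤ F ((1 - s) • x + s • y) at h3
      show P ≤ F ((1 - s) • x + s • y)
      refine le_trans ?_ h3
      have h4 : q2 ^ (1 - s) * η ^ s ≤ F x ^ (1 - s) * F y ^ s := by
        have := sub_pos.2 hs1'
        gcongr
      refine le_trans (le_of_eq ?_) h4
      apply Real.log_injOn_pos (Set.mem_Ioi.2 hP0) (Set.mem_Ioi.2 (by positivity))
      rw [Real.log_mul (by positivity) (by positivity), Real.log_rpow hq20, Real.log_rpow hη0]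
      have e1 : Real.log (q2 / P) = Real.log q2 - Real.log P :=
        Real.log_div (by positivity) (by positivity)
      have e2 : Real.log (q2 / η) = Real.log q2 - Real.log η :=
        Real.log_div (by positivity) (by positivity)
      have e3 : s * Real.log (q2 / η) = Real.log (q2 / P) := by
        rw [hs]; field_simp
      rw [e1, e2] at e3
      linarith)
    change (1 - s) * Real.log (G q2) + s * Real.log (G η) ≤ Real.log (G P) at c3
    have hGG : Real.log (G q1) - Real.log (G q2) ≤ 2 * Δ / p := by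
      rw [← Real.log_div hGq1.ne' hG20.ne']
      have h1 := Real.log_le_sub_one_of_pos (show 0 < G q1 / G q2 by positivity)
      have h2 : G q1 / G q2 - 1 = Δ / G q2 := by rw [hΔ]; field_simp
      rw [h2] at h1
      refine h1.trans ?_
      rw [div_le_div_iff₀ hG20 hp]
      have h3 : Δ * p ≤ Δ * (2 * G q2) := mul_le_mul_of_nonneg_left (by linarith) hΔ0
      linarith
    have hGG0 : 0 ≤ Real.log (G q1) - Real.log (G q2) :=
      sub_nonneg.2 (Real.log_le_log hG20 (hGanti _ _ hq12.le))
    have hXle : X ≤ 2 * Real.log (q2 / η) / k := by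
      rw [hX]
      apply div_le_div_of_nonneg_right _ hk0.le
      have : 2 * Real.log (q2 / η) = Real.log ((q2 / η) ^ 2) := by
        rw [Real.log_pow]; norm_num
      rw [this]
      apply Real.log_le_log (by positivity)
      rw [div_pow, div_le_div_iff₀ hη0 (by positivity)]
      have h1 : η * Ck ≤ q2 ^ 2 := by
        have := (hηr.trans hrC1)
        rwa [le_div_iff₀ hCk0] at this
      calc Ck * η ^ 2 = (η * Ck) * η := by ring
        _ ≤ q2 ^ 2 * η := by gcongr
    have c4 : Real.log (G η) - Real.log (G P) ≤ β * Real.log (P / η) := by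
      calc Real.log (G η) - Real.log (G P) ≤ (1 - s) * (Real.log (G η) - Real.log (G q2)) := by
            linarith
        _ ≤ (1 - s) * (X * (Real.log (G q1) - Real.log (G q2))) := by
            apply mul_le_mul_of_nonneg_left c2 (by linarith)
        _ ≤ (1 - s) * ((2 * Real.log (q2 / η) / k) * (2 * Δ / p)) := by
            apply mul_le_mul_of_nonneg_left _ (by linarith)
            apply mul_le_mul hXle hGG hGG0 (by positivity)
        _ = β * Real.log (P / η) := by
            rw [h1s, hβ, hk]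
            field_simp
            ring
    have c5 : G η ≤ G P * (P / η) ^ β := by
      rw [← Real.log_le_log_iff hGη (by positivity), Real.log_mul (by positivity) (by positivity),
        Real.log_rpow (by positivity)]
      linarith
    have c6 : 1 ≤ (P / η) ^ β := by
      apply Real.one_le_rpow _ hβ0
      rw [one_le_div hη0]
      exact hηP.le
    have c7 := hG1 P
    have c8 : G P * ((P / η) ^ β - 1) ≤ 1 * ((P / η) ^ β - 1) :=
      mul_le_mul_of_nonneg_right c7 (by linarith)
    linarith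
  -- loss
  have loss : ∫⁻ y in {y | F y < P}, g1 (S y) ∂ν ≤ ENNReal.ofReal (r * (Δ * c)) := by
    have hD : MeasurableSet {y | F y < P} := measurableSet_lt hFm measurable_const
    have e1 : ∫⁻ y in {y | F y < P}, g1 (S y) ∂ν =
        ∫⁻ y, ENNReal.ofReal ({y | F y < P}.indicator F y) ∂ν := by
      rw [← lintegral_indicator hD]
      apply lintegral_congr
      intro y
      by_cases h : F y < P
      · rw [indicator_of_mem (by exact h), indicator_of_mem (by exact h), hFS]
      · rw [indicator_of_notMem (by exact h), indicator_of_notMem (by exact h)]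
        simp
    rw [e1, lintegral_eq_lintegral_meas_le ν (ae_of_all _ fun y => indicator_nonneg
      (fun y _ => hF0 y) y) (hFm.indicator hD).aemeasurable]
    have e2 : ∫⁻ t in Ioi 0, ν {y | t ≤ {y | F y < P}.indicator F y} ≤
        ∫⁻ t in Ioo 0 P, ENNReal.ofReal ((P / t) ^ β - 1) := by
      rw [← lintegral_indicator measurableSet_Ioi, ← lintegral_indicator measurableSet_Ioo]
      apply lintegral_mono
      intro t
      simp only
      by_cases ht : 0 < t
      · rw [indicator_of_mem (by exact ht)]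
        by_cases htP : t < P
        · rw [indicator_of_mem (by exact ⟨ht, htP⟩)]
          have e3 : {y | t ≤ {y | F y < P}.indicator F y} = {y | t ≤ F y} \ {y | P ≤ F y} := by
            ext y
            simp only [mem_ofPred_eq, mem_sdiff, not_le]
            by_cases h : F y < P
            · rw [indicator_of_mem (by exact h)]
              simp [h]
            · rw [indicator_of_notMem (by exact h)]
              constructor
              · intro h'; linarith
              · rintro ⟨_, h'⟩; exact absurd h' h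
          rw [e3]
          have e4 : ν.real ({y | t ≤ F y} \ {y | P ≤ F y}) = G t - G P :=
            measureReal_sdiff (fun y hy => htP.le.trans hy) (hlev P)
          rw [← ENNReal.ofReal_toReal (measure_ne_top ν _)]
          apply ENNReal.ofReal_le_ofReal
          change ν.real _ ≤ _
          rw [e4]
          exact main t ht htP
        · rw [indicator_of_notMem (by exact fun h => htP h.2)]
          have e3 : {y | t ≤ {y | F y < P}.indicator F y} = ∅ := by
            ext y
            simp only [mem_ofPred_eq, mem_empty_iff_false, iff_false, not_le]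
            by_cases h : F y < P
            · rw [indicator_of_mem (by exact h)]
              linarith
            · rw [indicator_of_notMem (by exact h)]
              exact ht
          rw [e3]; simp
      · rw [indicator_of_notMem (by exact ht)]
        exact zero_le
    refine e2.trans ?_
    rw [layer_int hP0 hβ0 (by linarith)]
    apply ENNReal.ofReal_le_ofReal
    have h1 : P * β / (1 - β) ≤ P * β / (1 / 2) := by
      apply div_le_div_of_nonneg_left (by positivity) (by norm_num) (by linarith)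
    have h2 : P * β / (1 / 2) = P * (Δ * c) := by rw [hβ]; ring
    rw [h2] at h1
    refine h1.trans ?_
    gcongr
  -- gain
  set T := {y | q1 ≤ F y} \ {y | q2 ≤ F y} with hT
  have hTm : MeasurableSet T := (hlev q1).diff (hlev q2)
  have hTΔ : ν T = ENNReal.ofReal Δ := by
    have e4 : ν.real T = G q1 - G q2 :=
      measureReal_sdiff (fun y hy => hq12.le.trans hy) (hlev q2)
    rw [hΔ, ← e4, measureReal_def, ENNReal.ofReal_toReal (measure_ne_top _ _)]
  have hZ : {y | g1 (Icc (-r) r) ≤ g1 (S y)} = {y | F y < P}ᶜ := by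
    ext y
    simp only [mem_ofPred_eq, mem_compl_iff, not_lt]
    rw [hP, hF]
    simp only [measureReal_def]
    rw [ENNReal.toReal_le_toReal (measure_ne_top _ _) (measure_ne_top _ _)]
  have hD : MeasurableSet {y | F y < P} := measurableSet_lt hFm measurable_const
  have hTZ : T ⊆ {y | F y < P}ᶜ := by
    rintro y ⟨hy, -⟩
    have hy : q1 ≤ F y := hy
    simp only [mem_compl_iff, mem_ofPred_eq, not_lt]
    linarith
  rw [hZ, ← lintegral_add_compl _ hD]
  have g2 : ∫⁻ y in {y | F y < P}ᶜ, (g1 (S y) + T.indicator (fun _ => ENNReal.ofReal (c * r)) y) ∂ν ≤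
      ∫⁻ y in {y | F y < P}ᶜ, g1 (J y) ∂ν := by
    apply lintegral_mono
    intro y
    simp only
    by_cases hy : y ∈ T
    · rw [indicator_of_mem hy]
      have h1 : q1 ≤ F y := hy.1
      have h2 : F y < q2 := not_le.1 hy.2
      exact hgain r hr0 hr1 (S y) (hord y) h1 (by
        have : F y ≤ 1 / 2 := by linarith
        exact this) (J y) (hJm y) (hJ y)
    · rw [indicator_of_notMem hy, add_zero]
      apply measure_mono
      intro x hx
      exact hJ y x ⟨x, hx, by simp [hr0.le]⟩
  refine le_trans ?_ g2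
  rw [lintegral_add_left hS, lintegral_indicator hTm]
  simp only [lintegral_const]
  rw [Measure.restrict_apply_univ, Measure.restrict_apply hTm, inter_eq_left.2 hTZ, hTΔ, add_comm]
  gcongr
  refine loss.trans (le_of_eq ?_)
  rw [← ENNReal.ofReal_mul (by positivity)]
  congr 1
  ring


lemma prod_slice_le {α β : Type*} [MeasurableSpace α] [MeasurableSpace β] (μ : Measure α)
    (ν : Measure β) [SFinite ν] (s : Set (α × β)) :
    ∫⁻ y, ν (Prod.mk y ⁻¹' s) ∂μ ≤ (μ.prod ν) s := by
  rw [← measure_toMeasurable s, Measure.prod_apply (measurableSet_toMeasurable _ _)]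
  apply lintegral_mono
  intro y
  exact measure_mono (preimage_mono (subset_toMeasurable _ _))

section geom

variable {E : Type} [NormedAddCommGroup E] [InnerProductSpace ℝ E]
    [FiniteDimensional ℝ E] [MeasurableSpace E] [BorelSpace E]

lemma gauss_split (e : E) (he : ‖e‖ = 1) :
    ((stdGaussian (ℝ ∙ e)ᗮ).prod (gaussianReal 0 1)).map
      (fun q : (ℝ ∙ e)ᗮ × ℝ => (q.1 : E) + q.2 • e) = stdGaussian E := by
  have hmeas : Measurable (fun q : (ℝ ∙ e)ᗮ × ℝ => (q.1 : E) + q.2 • e) := by fun_prop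
  have : IsProbabilityMeasure (((stdGaussian (ℝ ∙ e)ᗮ).prod (gaussianReal 0 1)).map
      (fun q : (ℝ ∙ e)ᗮ × ℝ => (q.1 : E) + q.2 • e)) :=
    Measure.isProbabilityMeasure_map hmeas.aemeasurable
  apply Measure.ext_of_charFun
  ext t
  rw [charFun_stdGaussian, charFun_apply, integral_map hmeas.aemeasurable
    (by fun_prop)]
  set w : (ℝ ∙ e)ᗮ := (ℝ ∙ e)ᗮ.orthogonalProjectionOnto t with hw
  have h1 : ∀ q : (ℝ ∙ e)ᗮ × ℝ, Complex.exp (((⟪(q.1 : E) + q.2 • e, t⟫ : ℝ) : ℂ) * Complex.I) =
      Complex.exp (((⟪q.1, w⟫ : ℝ) : ℂ) * Complex.I) *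
        Complex.exp (((⟪q.2, (⟪e, t⟫ : ℝ)⟫ : ℝ) : ℂ) * Complex.I) := by
    intro q
    rw [← Complex.exp_add, ← add_mul, ← Complex.ofReal_add]
    congr 3
    rw [inner_add_left, inner_smul_left]
    congr 1
    · rw [hw, Submodule.inner_orthogonalProjectionOnto_eq_of_mem_left]
    · simp [mul_comm]
  simp_rw [h1]
  rw [integral_prod_mul (fun y : (ℝ ∙ e)ᗮ => Complex.exp (((⟪y, w⟫ : ℝ) : ℂ) * Complex.I))
    (fun s : ℝ => Complex.exp (((⟪s, (⟪e, t⟫ : ℝ)⟫ : ℝ) : ℂ) * Complex.I)), ← charFun_apply,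
    ← charFun_apply, charFun_stdGaussian, charFun_gaussianReal, ← Complex.exp_add]
  congr 1
  have h2 : ‖t‖ ^ 2 = (⟪e, t⟫ : ℝ) ^ 2 + ‖w‖ ^ 2 := by
    rw [(ℝ ∙ e).norm_sq_eq_add_norm_sq_starProjection t]
    congr 1
    · rw [Submodule.starProjection_unit_singleton ℝ he t, norm_smul, he, mul_one]
      simp
  have h3 : (‖t‖ : ℂ) ^ 2 = ((⟪e, t⟫ : ℝ) : ℂ) ^ 2 + (‖w‖ : ℂ) ^ 2 := by exact_mod_cast h2
  rw [h3]
  simp
  ring

/-- Transfer: the one-step inequality for a fixed `p`. -/
lemma step {p ρ : ℝ}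
    (hcore : ∀ (Y : Type) [AddCommGroup Y] [Module ℝ Y] [MeasurableSpace Y] (ν : Measure Y)
      [IsProbabilityMeasure ν], PLProp ν →
    ∀ S : Y → Set ℝ, Measurable (fun y => g1 (S y)) →
    (∀ (x y : Y) (s : ℝ), 0 < s → s < 1 → ∀ a ∈ S x, ∀ b ∈ S y,
      (1 - s) * a + s * b ∈ S ((1 - s) • x + s • y)) →
    (∀ y, (S y).OrdConnected) →
    ENNReal.ofReal p ≤ ∫⁻ y, g1 (S y) ∂ν →
    ∀ r, 0 < r → r ≤ ρ → ∀ J : Y → Set ℝ, (∀ y, MeasurableSet (J y)) →
    (∀ y x, (∃ z ∈ S y, |x - z| ≤ r) → x ∈ J y) →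
    ∫⁻ y, g1 (S y) ∂ν ≤ ∫⁻ y in {y | g1 (Icc (-r) r) ≤ g1 (S y)}, g1 (J y) ∂ν)
    (K : Set E) (hKc : IsClosed K) (hK : Convex ℝ K)
    (hp : ENNReal.ofReal p ≤ stdGaussian E K) (u : E) (hu : ‖u‖ ≤ ρ) :
    stdGaussian E K ≤ stdGaussian E (transform K u) := by
  classical
  by_cases hu0 : u = 0
  · simp [transform, hu0]
  have hr0 : 0 < ‖u‖ := norm_pos_iff.2 hu0
  set r := ‖u‖ with hr
  set e : E := r⁻¹ • u with he
  have he1 : ‖e‖ = 1 := by
    rw [he, norm_smul, Real.norm_of_nonneg (by positivity), ← hr]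
    exact inv_mul_cancel₀ hr0.ne'
  have hue : u = r • e := by
    rw [he, smul_smul, mul_inv_cancel₀ hr0.ne', one_smul]
  set Y := (ℝ ∙ e)ᗮ with hY
  set Φ : Y × ℝ → E := fun q => (q.1 : E) + q.2 • e with hΦ
  have hΦm : Measurable Φ := by fun_prop
  have hsplit : ((stdGaussian Y).prod (gaussianReal 0 1)).map Φ = stdGaussian E :=
    gauss_split e he1
  have hYorth : ∀ y : Y, ⟪u, (y : E)⟫ = 0 := by
    intro y
    have h1 : ⟪e, (y : E)⟫ = 0 := (Submodule.mem_orthogonal_singleton_iff_inner_right).1 y.2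
    rw [hue, inner_smul_left, h1, mul_zero]
  set S : Y → Set ℝ := fun y => lineSec K u y with hS
  have hSeq : ∀ y, S y = Prod.mk y ⁻¹' (Φ ⁻¹' K) := fun y => rfl
  have hKm : MeasurableSet (Φ ⁻¹' K) := hΦm hKc.measurableSet
  have hK1 : stdGaussian E K = ∫⁻ y, g1 (S y) ∂(stdGaussian Y) := by
    rw [← hsplit, Measure.map_apply hΦm hKc.measurableSet, Measure.prod_apply hKm]
    rfl
  set KS : Set E := K + segment ℝ (-u) u with hKS
  have hKSc : IsClosed KS := by
    rw [hKS]
    apply hKc.add_right_of_isCompact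
    rw [segment_eq_image]
    exact isCompact_Icc.image (by fun_prop)
  set J : Y → Set ℝ := fun y => Prod.mk y ⁻¹' (Φ ⁻¹' KS) with hJ
  have hJm : ∀ y, MeasurableSet (J y) := fun y =>
    measurable_prodMk_left (hΦm hKSc.measurableSet)
  have key := hcore Y (stdGaussian Y) (pl_stdGaussian Y) S (measurable_measure_prodMk_left hKm)
    (by
      intro x y s hs0 hs1 a ha b hb
      have ha : (x : E) + a • e ∈ K := ha
      have hb : (y : E) + b • e ∈ K := hb
      show (((1 - s) • x + s • y : Y) : E) + ((1 - s) * a + s * b) • e ∈ K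
      have h := hK ha hb (sub_pos.2 hs1).le hs0.le (by ring)
      convert h using 1
      push_cast
      module)
    (by
      intro y
      apply Convex.ordConnected
      intro a ha b hb α β hα hβ hαβ
      have ha : (y : E) + a • e ∈ K := ha
      have hb : (y : E) + b • e ∈ K := hb
      show (y : E) + (α • a + β • b) • e ∈ K
      have h := hK ha hb hα hβ hαβ
      convert h using 1
      simp only [smul_eq_mul]
      have : (y : E) = (α + β) • (y : E) := by rw [hαβ, one_smul]
      nth_rewrite 1 [this]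
      module)
    (by rw [← hK1]; exact hp) r hr0 hu J hJm (by
      rintro y x ⟨z, hz, hxz⟩
      have hz : (y : E) + z • e ∈ K := hz
      show (y : E) + x • e ∈ KS
      rw [hKS]
      refine Set.mem_add.2 ⟨(y : E) + z • e, hz, (x - z) • e, ?_, by module⟩
      have habs := abs_le.1 hxz
      rw [segment_eq_image']
      refine ⟨((x - z) / r + 1) / 2, ⟨?_, ?_⟩, ?_⟩
      · have : -1 ≤ (x - z) / r := by rw [le_div_iff₀ hr0]; linarith
        linarith
      · have : (x - z) / r ≤ 1 := by rw [div_le_iff₀ hr0]; linarith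
        linarith
      · simp only
        rw [hue]
        have : (x - z) = -r + ((x - z) / r + 1) / 2 * (r + r) := by
          field_simp
          ring
        nth_rewrite 2 [this]
        module)
  rw [hK1]
  refine key.trans ?_
  have hle1 : ((stdGaussian Y).prod (gaussianReal 0 1)) (Φ ⁻¹' (transform K u)) ≤
      stdGaussian E (transform K u) := by
    rw [← hsplit]
    exact Measure.le_map_apply hΦm.aemeasurable _
  refine le_trans ?_ hle1
  refine le_trans ?_ (prod_slice_le _ _ _)
  have hZm : MeasurableSet {y | g1 (Icc (-r) r) ≤ g1 (S y)} :=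
    measurableSet_le measurable_const (measurable_measure_prodMk_left hKm)
  rw [← lintegral_indicator hZm]
  apply lintegral_mono
  intro y
  simp only
  by_cases hy : y ∈ {y | g1 (Icc (-r) r) ≤ g1 (S y)}
  · rw [indicator_of_mem hy]
    apply measure_mono
    intro t ht
    have ht : (y : E) + t • e ∈ KS := ht
    show (y : E) + t • e ∈ transform K u
    rw [transform, if_neg hu0]
    refine ⟨ht, Set.mem_add.2 ⟨(y : E), ⟨hYorth y, hy⟩, t • e, ⟨t * r⁻¹, ?_⟩, rfl⟩⟩
    rw [he, smul_smul]
  · rw [indicator_of_notMem hy]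
    exact zero_le

end geom

/-- For every level `p` there is a positive radius which works in all dimensions. -/
theorem exists_radius {p : ℝ} (hp : 0 < p) : ∃ ρ : ℝ, 0 < ρ ∧ ∀ (n : ℕ)
    (K : Set (EuclideanSpace ℝ (Fin n))), IsClosed K → Convex ℝ K →
    ENNReal.ofReal p ≤ stdGaussian (EuclideanSpace ℝ (Fin n)) K →
    ∀ u : EuclideanSpace ℝ (Fin n), ‖u‖ ≤ ρ →
    stdGaussian (EuclideanSpace ℝ (Fin n)) K ≤
      stdGaussian (EuclideanSpace ℝ (Fin n)) (transform K u) := by
  by_cases hp1 : p ≤ 1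
  · obtain ⟨ρ, hρ, h⟩ := core hp hp1
    exact ⟨ρ, hρ, fun n K hKc hK hpK u hu => step h K hKc hK hpK u hu⟩
  · refine ⟨1, one_pos, fun n K hKc hK hpK u hu => ?_⟩
    exfalso
    have h1 := hpK.trans prob_le_one
    rw [ENNReal.ofReal_le_one] at h1
    exact hp1 h1

/-- `p ↦ admissible radii` -/
def Adm (p : ℝ) : Set ℝ := {ρ : ℝ | 0 < ρ ∧ ρ ≤ 1 ∧ ∀ (n : ℕ)
    (K : Set (EuclideanSpace ℝ (Fin n))), IsClosed K → Convex ℝ K →
    ENNReal.ofReal p ≤ stdGaussian (EuclideanSpace ℝ (Fin n)) K →
    ∀ u : EuclideanSpace ℝ (Fin n), ‖u‖ ≤ ρ →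
    stdGaussian (EuclideanSpace ℝ (Fin n)) K ≤
      stdGaussian (EuclideanSpace ℝ (Fin n)) (transform K u)}

lemma adm_nonempty {p : ℝ} (hp : 0 < p) : (Adm p).Nonempty := by
  obtain ⟨ρ, hρ, h⟩ := exists_radius hp
  refine ⟨min ρ 1, by positivity, min_le_right _ _, ?_⟩
  intro n K hKc hK hpK u hu
  exact h n K hKc hK hpK u (hu.trans (min_le_left _ _))

lemma adm_bdd (p : ℝ) : BddAbove (Adm p) := ⟨1, fun _ h => h.2.1⟩

lemma adm_mono {p q : ℝ} (hpq : p ≤ q) : Adm p ⊆ Adm q := by
  rintro ρ ⟨h1, h2, h3⟩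
  exact ⟨h1, h2, fun n K hKc hK hqK u hu =>
    h3 n K hKc hK ((ENNReal.ofReal_le_ofReal hpq).trans hqK) u hu⟩

/-- **Full positive answer to Q1.** -/
theorem result : ∃ r : ℝ → ℝ, StrictMonoOn r (Set.Ioo 0 1) ∧ (∀ p ∈ Set.Ioo (0 : ℝ) 1, 0 < r p) ∧
    ∀ n : ℕ, 2 ≤ n → ∀ K : Set (EuclideanSpace ℝ (Fin n)), IsClosed K → Convex ℝ K →
      0 < stdGaussian (EuclideanSpace ℝ (Fin n)) K →
      stdGaussian (EuclideanSpace ℝ (Fin n)) K < 1 →
      ∀ u : EuclideanSpace ℝ (Fin n),
        ‖u‖ ≤ r (stdGaussian (EuclideanSpace ℝ (Fin n)) K).toReal →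
        stdGaussian (EuclideanSpace ℝ (Fin n)) K ≤
          stdGaussian (EuclideanSpace ℝ (Fin n)) (transform K u) := by
  have hpos : ∀ p : ℝ, 0 < p → 0 < sSup (Adm p) := by
    intro p hp
    obtain ⟨ρ, hρ⟩ := adm_nonempty hp
    exact lt_of_lt_of_le hρ.1 (le_csSup (adm_bdd p) hρ)
  refine ⟨fun p => p * sSup (Adm p), ?_, ?_, ?_⟩
  · intro p hp q hq hpq
    have h1 : sSup (Adm p) ≤ sSup (Adm q) :=
      csSup_le_csSup (adm_bdd q) (adm_nonempty hp.1) (adm_mono hpq.le)
    have h2 := hpos p hp.1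
    calc p * sSup (Adm p) < q * sSup (Adm p) := by gcongr
      _ ≤ q * sSup (Adm q) := by
          have := hq.1
          gcongr
  · intro p hp
    exact mul_pos hp.1 (hpos p hp.1)
  · intro n _ K hKc hK h0 h1 u hu
    set p := (stdGaussian (EuclideanSpace ℝ (Fin n)) K).toReal with hp
    have hp0 : 0 < p := ENNReal.toReal_pos h0.ne' (measure_ne_top _ _)
    have hp1 : p < 1 := by
      have := (ENNReal.toReal_lt_toReal (measure_ne_top _ _) ENNReal.one_ne_top).2 h1
      simpa using this
    have hlt : ‖u‖ < sSup (Adm p) := by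
      refine lt_of_le_of_lt hu ?_
      have := hpos p hp0
      simp only
      nlinarith
    obtain ⟨ρ, hρ, hρu⟩ := exists_lt_of_lt_csSup (adm_nonempty hp0) hlt
    exact hρ.2.2 n K hKc hK (by rw [hp, ENNReal.ofReal_toReal (measure_ne_top _ _)]) u hρu.le

end Pool.Agent.Results.MP_681294_gt.GaussMono
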